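import Pool.Agent.Helper93_BEF.FNZ
import Pool.Agent.Helper5_BEF.GPR
import Pool.Agent.Helper24_BEF.GLI
import Pool.Agent.Helper52_BEF.GDV
import Pool.Agent.Helper88_BEF.DFL
import Pool.Agent.Helper43_BEF.CHA
import Pool.Agent.Helper5_BEF.GBD
import Pool.Agent.Helper10_BEF.GPW
import Pool.Agent.Helper69_BEF.QPW
import Pool.Agent.Helper50_BEF.REZ
import Pool.Agent.Helper15_BEF.BAZ
import Pool.Agent.Helper25_BEF.STZ
import Pool.Agent.Helper41_BEF.APZ
import Pool.Agent.Helper65_BEF.NEZ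
import Pool.Agent.Helper89_BEF.GLO
import Pool.Agent.Helper69_BEF.TRU
import Pool.Agent.Helper61_BEF.TRZ
import Pool.Agent.Helper77_BEF.GSM
import Pool.Agent.Helper62_BEF.LDX
import Pool.Agent.Helper47_BEF.LDE
import Pool.Agent.Helper61_BEF.ASZ
import Pool.Agent.Helper50_BEF.TIM
import Pool.Agent.Helper62_BEF.FRM
import Pool.Agent.Helper70_BE01.Conv

/-!
# Squad BEF (MP_be01ff_an): all modules together. Theorem F in the plane and in the space.
-/

namespace Pool.Agent.BEF.Fin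

open Pool.Agent Pool.Agent.BEF
open Set Filter Topology MeasureTheory
open scoped InnerProductSpace ENNReal

noncomputable section

theorem dfl : DflStmt := H88.dfl H24.gli H52.gdv

theorem gpw : GpwStmt := H10.gpw H5.gpr H24.gli

theorem baz : BazStmt := H15.baz H24.gli H52.gdv dfl H69.qpw gpw

theorem stz : StzStmt := H25.stz H5.gpr H24.gli H52.gdv dfl gpw H69.qpw H50.rez

theorem apz : ApzStmt := H41.apz H24.gli baz stz

theorem nez : NezStmt := H65.nez H69.qpw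

theorem trz : TrzStmt := H61.trz H89.glo H69.tru

theorem ldx : LdxStmt := H62.ldx H24.gli H52.gdv dfl H5.gbd H69.qpw

theorem lde : LdeStmt := H47.lde H24.gli H52.gdv dfl H5.gbd H69.qpw

theorem asz : AszStmt := H61A.asz H24.gli H52.gdv dfl H43.cha H5.gbd apz nez trz H77.gsm ldx lde

theorem tim : TimStmt := H50.tim Helper70BE01All.lia Helper70BE01All.lib Helper70BE01All.lic
  Helper70BE01All.nlp

/-- The theorem with finitely many conditions. -/
theorem fnz : FnzStmt := H93.fnz H62.frm asz tim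

/-- Theorem F. -/
theorem fnf : FnfStmt := H93.fnf fnz

variable {d : ℕ}

/-- Theorem F, formulated with functions: `Ω` bounded open in `ℝ²` or `ℝ³`, `l` a Dirichlet eigenvalue
of any multiplicity such that `n² l` is a Dirichlet eigenvalue for finitely many odd `n` only. -/
theorem sharp (hd : d = 2 ∨ d = 3) (Ω : Set (BE01F.E d)) (hΩ : IsOpen Ω)
    (hb : Bornology.IsBounded Ω) (p : ℕ) (hp : 1 ≤ p) (a l : ℝ) (ha : 0 < a)
    (hl : ∃ φ, BE01F.Eig Ω l φ ∧ ¬ BE01F.AeZero Ω φ)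
    (hfin : {n : ℕ | Odd n ∧ ∃ u, BE01F.Eig Ω ((n : ℝ) ^ 2 * l) u ∧ ¬ BE01F.AeZero Ω u}.Finite) :
    BE01F.SharpRate Ω a ((2 * p : ℕ) : ℝ) := by
  obtain ⟨φ, hE, hφ⟩ := hl
  have hne : Ω.Nonempty := by
    rw [nonempty_iff_ne_empty]
    intro h0
    apply hφ
    show ∀ᵐ x ∂(volume.restrict Ω), φ x = 0
    rw [h0, Measure.restrict_empty]
    simp
  have hDom : BE01.Dom Ω := ⟨hΩ, hb, hne⟩
  have hmem : MemLp φ 2 (BE01.mu Ω) := hE.choose_spec.1.1
  have hφe : hmem.toLp φ =ᵐ[BE01.mu Ω] φ := hmem.coeFn_toLp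
  have hl' : BE01.IsEig Ω l (hmem.toLp φ) := Helper70BE01Conv.eig_to hE hφe
  have hφ0 : hmem.toLp φ ≠ 0 := by
    intro h0
    apply hφ
    have h1 : hmem.toLp φ =ᵐ[BE01.mu Ω] 0 := by
      rw [h0]
      exact Lp.coeFn_zero _ _ _
    exact hφe.symm.trans h1
  refine Helper70BE01Conv.sharp_of (fnf d Ω p a l (hmem.toLp φ) hd hDom hp ha hφ0 hl' ?_)
  refine hfin.subset ?_
  rintro n ⟨hn, u, hu, hEu⟩
  refine ⟨hn, fun x => u x, Helper70BE01Conv.eig_of hEu, fun h0 => hu ?_⟩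
  have h1 : ∀ᵐ x ∂(BE01.mu Ω), u x = 0 := h0
  rw [Lp.eq_zero_iff_ae_eq_zero]
  exact h1

end

end Pool.Agent.BEF.Fin
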