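import Pool.Agent.BEF.Stmts
import Pool.Agent.Helper70_BE01.All

/-!
# Squad BEF (MP_be01ff_an): module FNZ, the theorem
-/

namespace Pool.Agent.BEF.H93

open Pool.Agent.BE01 Pool.Agent.Helper70BE01Fnl Pool.Agent.BEF
open Set Filter Topology MeasureTheory
open scoped InnerProductSpace ENNReal

noncomputable section

variable {d : ℕ} {Ω : Set (En d)}

theorem hpow' {X : Type} [NormedCommRing X] [NormedAlgebra ℝ X]
    {A : Alg X (Lp ℝ 4 (mu Ω)) (Lp ℝ 2 (mu Ω))}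
    (hmul : ∀ x x', A.e (x * x') =ᵐ[mu Ω] fun z => A.e x z * A.e x' z)
    (hone : A.e 1 =ᵐ[mu Ω] fun _ => 1) (x : X) (n : ℕ) :
    A.e (x ^ n) =ᵐ[mu Ω] fun z => (A.e x z) ^ n := by
  induction n with
  | zero =>
    rw [pow_zero]
    filter_upwards [hone] with z hz
    rw [hz, pow_zero]
  | succ n ih =>
    rw [pow_succ]
    filter_upwards [ih, hmul (x ^ n) x] with z h1 h2
    rw [h2, h1, pow_succ]

theorem psv {X : Type} [NormedCommRing X] [NormedAlgebra ℝ X]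
    {A : Alg X (Lp ℝ 4 (mu Ω)) (Lp ℝ 2 (mu Ω))}
    (hmul : ∀ x x', A.e (x * x') =ᵐ[mu Ω] fun z => A.e x z * A.e x' z)
    (hone : A.e 1 =ᵐ[mu Ω] fun _ => 1) (p : ℕ) : Psv A p := by
  intro x hx
  have hpow := hpow' hmul hone x (2 * p + 1)
  rw [L2.inner_def]
  have h1 : ∀ᵐ z ∂(mu Ω), ⟪A.e (x ^ (2 * p + 1)) z, A.e x z⟫_ℝ = A.e x z ^ (2 * (p + 1)) := by
    filter_upwards [hpow] with z hz
    rw [hz]
    simp only [RCLike.inner_apply, conj_trivial]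
    ring
  have hnn : 0 ≤ᵐ[mu Ω] fun z => ⟪A.e (x ^ (2 * p + 1)) z, A.e x z⟫_ℝ := by
    filter_upwards [h1] with z hz
    rw [hz]
    simp only [Pi.zero_apply]
    rw [pow_mul]
    positivity
  have hint := L2.integrable_inner (𝕜 := ℝ) (A.e (x ^ (2 * p + 1))) (A.e x)
  refine lt_of_le_of_ne (integral_nonneg_of_ae hnn) (fun h0 => hx ?_)
  have h2 := (integral_eq_zero_iff_of_nonneg_ae hnn hint).1 h0.symm
  rw [Lp.eq_zero_iff_ae_eq_zero]
  filter_upwards [h1, h2] with z hz hz2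
  rw [hz] at hz2
  simp only [Pi.zero_apply] at hz2 ⊢
  exact pow_eq_zero_iff (by omega) |>.1 hz2

/-- row FNZ -/
theorem fnz (frm : FrmStmt) (asz : AszStmt) (tim : TimStmt) : FnzStmt := by
  intro d Ω p a l φ0 hd hDom hp ha hφ hEig
  obtain ⟨X, iX1, iX2, iX3, A, W, Z, hle, hconv, hmul, hone, hcomp, hH10, hZ, hZψ, hEigS⟩ :=
    Pool.Agent.Helper70BE01All.wvc2 d Ω hd hDom
  have hφS : φ0 = l • W.S φ0 := (hEigS l φ0).1 hEig
  have hsymm : ∀ h k, ⟪W.S h, k⟫_ℝ = ⟪h, W.S k⟫_ℝ := by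
    intro h k
    rw [← W.prp.RR h, ← W.prp.RR k, W.prp.R_symm, W.prp.R_symm]
  have hφn : 0 < ‖φ0‖ := norm_pos_iff.2 hφ
  have hl : 0 < l := by
    have h1 : ‖φ0‖ ^ 2 = l * ‖Z φ0‖ ^ 2 := by
      rw [hZ, ← real_inner_smul_right, ← hφS, real_inner_self_eq_norm_sq]
    have h2 : 0 < l * ‖Z φ0‖ ^ 2 := by rw [← h1]; positivity
    by_contra hneg
    have : l * ‖Z φ0‖ ^ 2 ≤ 0 := mul_nonpos_of_nonpos_of_nonneg (not_lt.1 hneg) (sq_nonneg _)
    linarith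
  set ω : ℝ := Real.sqrt l with hωdef
  have hω : 0 < ω := Real.sqrt_pos.2 hl
  have hω2 : ω ^ 2 = l := Real.sq_sqrt hl.le
  obtain ⟨m, φ, hφo, hφe, hspan, hfr⟩ := frm _ W.S l hcomp hsymm
  have hm : 1 ≤ m := by
    rcases Nat.eq_zero_or_pos m with h0 | h0
    · exfalso
      subst h0
      have h1 := hspan φ0 hφS
      rw [Set.range_eq_empty, Submodule.span_empty, Submodule.mem_bot] at h1
      exact hφ h1
    · exact h0
  have hevc : Evc W ω φ := ⟨hφo, fun i => by rw [hω2]; exact hφe i⟩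
  obtain ⟨M, hM⟩ := asz X (Lp ℝ 4 (mu Ω)) (Lp ℝ 2 (mu Ω)) A W m p a ω φ hm hp ha hω hevc
    (psv hmul hone p)
  refine ⟨M, fun hnr => ?_⟩
  have hslv : Slm W.S ω φ M := by
    refine ⟨?_, ?_⟩
    · rw [hω2]
      exact hfr
    · intro n hn h3 hM
      rw [hω2]
      refine (Pool.Agent.BE01.H69.fre _ W.S ((n : ℝ) ^ 2 * l) hcomp hsymm).1 (fun u hu => ?_)
      exact hnr n hn h3 hM u ((hEigS _ u).2 hu)
  obtain ⟨t0, c, C, u, x, k, w, h, ht0, hc, hwc, hhc, H⟩ :=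
    tim X (Lp ℝ 4 (mu Ω)) (Lp ℝ 2 (mu Ω)) A W p a hp ha (hM hslv)
  have hpow := fun (x : X) (n : ℕ) => hpow' hmul hone x n
  have hs : ∀ t : ℝ, 0 ≤ t → t0 < t + (t0 + 1) := fun t ht => by linarith
  refine ⟨fun t => u (t + (t0 + 1)), fun t => A.e (x (t + (t0 + 1))), fun t => w (t + (t0 + 1)),
    fun t => Z (h (t + (t0 + 1))), ?_, ?_⟩
  · refine ⟨?_, ?_, ?_, ?_, ?_, ?_, ?_, ?_⟩
    · intro t ht
      obtain ⟨-, -, -, hu, -, -, -⟩ := H _ (hs t ht)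
      show (u (t + (t0 + 1)), Z (h (t + (t0 + 1)))) ∈ H10 Ω
      rw [hu]
      exact hH10 _
    · intro t ht
      obtain ⟨-, -, hx, -, -, -, -⟩ := H _ (hs t ht)
      refine ⟨Z (k (t + (t0 + 1))), ?_⟩
      show (A.e (x (t + (t0 + 1))), Z (k (t + (t0 + 1)))) ∈ H10 Ω
      rw [hx, W.e_SX]
      exact hH10 _
    · intro t ht
      obtain ⟨hu, -, -, -, -, -, -⟩ := H _ (hs t ht)
      exact hu.comp_add_const t (t0 + 1)
    · intro t ht
      obtain ⟨-, hv, -, -, -, -, -⟩ := H _ (hs t ht)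
      exact hv.comp_add_const t (t0 + 1)
    · refine Z.continuous.comp_continuousOn (hhc.comp (by fun_prop) ?_)
      intro t ht
      exact hs t ht
    · refine hwc.comp (by fun_prop) ?_
      intro t ht
      exact hs t ht
    · intro t ht
      refine ⟨‖x (t + (t0 + 1))‖, ?_⟩
      exact hle _
    · intro t ht ψ hψ
      obtain ⟨-, -, -, -, heq, -, -⟩ := H _ (hs t ht)
      set s := t + (t0 + 1) with hsdef
      have h1 : ∀ᵐ z ∂(mu Ω), a * |A.e (x s) z| ^ ((2 * p : ℕ) : ℝ) * A.e (x s) z * ψ z =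
          a * (A.e (x s ^ (2 * p + 1)) z * ψ z) := by
        filter_upwards [hpow (x s) (2 * p + 1)] with z hz
        rw [hz, Real.rpow_natCast, pow_mul, sq_abs, ← pow_mul]
        ring
      have h2 : ∀ᵐ z ∂(mu Ω), w s z * ψ z + h s z * ψ z + a * (A.e (x s ^ (2 * p + 1)) z * ψ z) =
          0 := by
        have h3 : (w s + h s + a • A.e (x s ^ (2 * p + 1)) : Lp ℝ 2 (mu Ω)) =ᵐ[mu Ω] 0 := by
          rw [heq]
          exact Lp.coeFn_zero _ _ _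
        filter_upwards [h3, Lp.coeFn_add (w s + h s) (a • A.e (x s ^ (2 * p + 1))),
          Lp.coeFn_add (w s) (h s), Lp.coeFn_smul a (A.e (x s ^ (2 * p + 1)))] with z h4 h5 h6 h7
        rw [h5] at h4
        simp only [Pi.add_apply, Pi.zero_apply] at h4
        rw [h6, h7] at h4
        simp only [Pi.add_apply, Pi.smul_apply, smul_eq_mul] at h4
        have h8 := congrArg (fun r => r * ψ z) h4
        simp only [zero_mul] at h8
        linarith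
      have i1 := int_mul (w s) hψ
      have i2 := int_mul (h s) hψ
      have i3 := int_inner (Z (h s)) hψ
      have i4 := (int_mul (A.e (x s ^ (2 * p + 1))) hψ).const_mul a
      have e1 : ∫ z, w s z * ψ z + ⟪Z (h s) z, gradient ψ z⟫_ℝ +
          a * |A.e (x s) z| ^ ((2 * p : ℕ) : ℝ) * A.e (x s) z * ψ z ∂(mu Ω) =
          ∫ z, (w s z * ψ z + ⟪Z (h s) z, gradient ψ z⟫_ℝ) +
            a * (A.e (x s ^ (2 * p + 1)) z * ψ z) ∂(mu Ω) := by
        refine integral_congr_ae ?_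
        filter_upwards [h1] with z hz
        rw [hz]
      have e2 : ∫ z, (w s z * ψ z + h s z * ψ z) + a * (A.e (x s ^ (2 * p + 1)) z * ψ z) ∂(mu Ω) =
          0 := by
        rw [integral_congr_ae (g := fun _ => (0 : ℝ)) h2]
        simp
      rw [int3 i1 i2 i4] at e2
      show ∫ z, w s z * ψ z + ⟪Z (h s) z, gradient ψ z⟫_ℝ +
          a * |A.e (x s) z| ^ ((2 * p : ℕ) : ℝ) * A.e (x s) z * ψ z ∂(mu Ω) = 0
      rw [e1, int3 i1 i3 i4, hZψ (h s) ψ hψ]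
      exact e2
  · have hexp : (-(2 / ((2 * p : ℕ) : ℝ))) = -(1 / (p : ℝ)) := by
      have : (p : ℝ) ≠ 0 := by positivity
      push_cast
      field_simp
    have hC : 0 < C := by
      obtain ⟨-, -, -, -, -, h1, h2⟩ := H (t0 + 1) (by linarith)
      have h3 : 0 < (t0 + 1) ^ (-(1 / (p : ℝ))) := Real.rpow_pos_of_pos (by linarith) _
      have h4 : c * (t0 + 1) ^ (-(1 / (p : ℝ))) ≤ C * (t0 + 1) ^ (-(1 / (p : ℝ))) := h1.trans h2
      have h5 := le_of_mul_le_mul_right h4 h3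
      linarith
    refine ⟨c * (t0 + 1) ^ (-(1 / (p : ℝ))), C, mul_pos hc (Real.rpow_pos_of_pos (by linarith) _),
      fun t ht => ?_⟩
    obtain ⟨-, -, -, -, -, h1, h2⟩ := H _ (hs t ht)
    rw [hexp, energy_eq]
    show _ ≤ ‖A.e (x (t + (t0 + 1)))‖ ^ 2 + ‖Z (h (t + (t0 + 1)))‖ ^ 2 ∧
      ‖A.e (x (t + (t0 + 1)))‖ ^ 2 + ‖Z (h (t + (t0 + 1)))‖ ^ 2 ≤ _
    rw [hZ]
    have hneg : -(1 / (p : ℝ)) ≤ 0 := by
      have : 0 ≤ 1 / (p : ℝ) := by positivity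
      linarith
    constructor
    · refine le_trans ?_ h1
      rw [mul_assoc, ← Real.mul_rpow (by linarith) (by linarith)]
      refine mul_le_mul_of_nonneg_left ?_ hc.le
      refine Real.rpow_le_rpow_of_nonpos (by linarith) ?_ hneg
      nlinarith
    · refine h2.trans ?_
      refine mul_le_mul_of_nonneg_left ?_ hC.le
      exact Real.rpow_le_rpow_of_nonpos (by linarith) (by linarith) hneg

/-- row FNF -/
theorem fnf (fnz : FnzStmt) : FnfStmt := by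
  intro d Ω p a l φ hd hDom hp ha hφ hEig hfin
  set T : Set ℕ := {n : ℕ | Odd n ∧ ∃ u : Lp ℝ 2 (mu Ω), u ≠ 0 ∧ IsEig Ω ((n : ℝ) ^ 2 * l) u}
    with hT
  have h1 : 1 ∈ T := by
    refine ⟨odd_one, φ, hφ, ?_⟩
    rw [Nat.cast_one, one_pow, one_mul]
    exact hEig
  obtain ⟨n0, hn0, hmax⟩ := hfin.exists_maximal ⟨1, h1⟩
  obtain ⟨hodd, u0, hu0, hE0⟩ := hn0
  obtain ⟨M, hM⟩ := fnz d Ω p a ((n0 : ℝ) ^ 2 * l) u0 hd hDom hp ha hu0 hE0
  refine hM (fun n hn h3 _ u hu => ?_)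
  by_contra hne
  have hpos : 0 < n0 := hodd.pos
  have hmem : n * n0 ∈ T := by
    refine ⟨hn.mul hodd, u, hne, ?_⟩
    have e : (((n * n0 : ℕ) : ℝ)) ^ 2 * l = (n : ℝ) ^ 2 * ((n0 : ℝ) ^ 2 * l) := by
      push_cast
      ring
    rw [e]
    exact hu
  have hle : n0 ≤ n * n0 := Nat.le_mul_of_pos_left n0 (by omega)
  have h4 := hmax hmem hle
  have h5 : n * n0 ≤ n0 := h4
  nlinarith

end

end Pool.Agent.BEF.H93
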